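import Pool.Agent.Results.MP_be93de_nt.MostShifts

/-!
# Primes `c + p_{kn}²` and `c - p_{kn}²`: almost all constants

The problem asks, for every `n`, for some `k ≤ n` such that `2 k + 1` and `p_{kn}² - 2` are prime. Here
`n` is fixed, the condition on `2 k + 1` is dropped, and the constant `-2` is replaced by other
constants: for most vectors `(c_1, ..., c_r)` without a local obstruction and each choice of signs the
numbers `c_j ± p_{kn}²` are simultaneously positive primes for the expected number of `k`, up to a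
constant factor; moreover, for any finite colouring of the `k`, already for those `k` for which at
least `m` primes `p_{k'n}` within `ε log p_{kn}` of `p_{kn}` have `k'` of the colour of `k`.

The coloured theorem of the Maynard-Tao type of the starting library (`Pool.Agent.TH882`) and the
theorem `sys_pm` of `Pool.Agent.V1137` are used, and the lemma `clusters` on index sets of
`Pool.Agent.Results.MP_be93de_nt.MostShifts`.
-/

set_option autoImplicit false

open Finset Filter Topology

namespace Pool.Agent.Results.MP_c971ef_nt.MostConstants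

/-- The `m`-th prime: `p 1 = 2`, `p 2 = 3`, `p 3 = 5`, and so on. -/
noncomputable def p (m : ℕ) : ℕ := Nat.nth Nat.Prime (m - 1)

/-- For every prime `l` there is an integer `y` such that `l` divides none of the numbers
`y, c_1 + σ_1 y², ..., c_r + σ_r y²`. -/
def NoObstruction {r : ℕ} (σ : Fin r → ℤ) (c : Fin r → ℕ) : Prop :=
  ∀ l : ℕ, l.Prime → ∃ y : ℤ, ¬ (l : ℤ) ∣ y ∧ ∀ j, ¬ (l : ℤ) ∣ c j + σ j * y ^ 2

/-- At least `m` other primes `p_{k'n}` within `ε log p_{kn}` of `p_{kn}` have `k'` of the colour of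
`k`. -/
def Clustered {s : ℕ} (n : ℕ) (χ : ℕ → Fin s) (m : ℕ) (ε : ℝ) (k : ℕ) : Prop :=
  ∃ S : Finset ℕ, S.card = m ∧ ∀ k' ∈ S, 1 ≤ k' ∧ k' ≠ k ∧ χ k' = χ k ∧
    |(p (k' * n) : ℝ) - p (k * n)| ≤ ε * Real.log (p (k * n))

/-- The `k ≥ 1` with `p_{kn} ≤ x` and the cluster property for which all `c_j + σ_j p_{kn}²` are
(positive) primes. -/
def good {r s : ℕ} (σ : Fin r → ℤ) (n : ℕ) (χ : ℕ → Fin s) (m : ℕ) (ε : ℝ) (c : Fin r → ℕ)
    (x : ℕ) : Set ℕ :=
  {k : ℕ | 1 ≤ k ∧ p (k * n) ≤ x ∧ Clustered n χ m ε k ∧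
    ∀ j, ∃ q : ℕ, q.Prime ∧ (q : ℤ) = c j + σ j * (p (k * n) : ℤ) ^ 2}

open Classical in
/-- The vectors with `1 ≤ c_j ≤ L x²` without obstruction and with fewer than
`δ x / (log x) ^ (r + 1)` such `k`. -/
noncomputable def exceptions {r s : ℕ} (σ : Fin r → ℤ) (n : ℕ) (χ : ℕ → Fin s) (m : ℕ) (ε δ : ℝ)
    (L x : ℕ) : Finset (Fin r → ℕ) :=
  (Fintype.piFinset (fun _ : Fin r => Icc 1 (L * x ^ 2))).filter (fun c => NoObstruction σ c ∧
    ((good σ n χ m ε c x).ncard : ℝ) < δ * (x / Real.log x ^ (r + 1)))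

open Pool.Agent.V1137.Unav in
theorem fixed {r s : ℕ} (σ : Fin r → ℤ) (hσ : ∀ j, σ j = 1 ∨ σ j = -1) (n : ℕ) (hn : 1 ≤ n)
    (χ : ℕ → Fin s) (m : ℕ) (ε : ℝ) (hε : 0 < ε)
    (L : ℕ) (κ : ℝ) (hκ : 0 < κ) : ∃ δ : ℝ, 0 < δ ∧ ∀ᶠ x : ℕ in atTop,
      ((exceptions σ n χ m ε δ L x).card : ℝ) ≤ κ * ((x : ℝ) ^ 2) ^ r := by
  classical
  obtain ⟨M, η, hη, hM⟩ := Pool.Agent.Results.MP_5d7b92_nt.CommonSummands.meets _
    (Pool.Agent.Results.MP_be93de_nt.MostShifts.clusters n hn χ m ε hε)
  obtain ⟨δ, hδ, x₀, h⟩ := sys_pm σ hσ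
    (fun _ => (Polynomial.X : Polynomial ℤ) ^ 2) (fun _ => by simp) (fun _ => by simp)
    {q : ℕ | Nat.primeCounting q ∈ {i : ℕ | ∃ k : ℕ, 1 ≤ k ∧ i = k * n ∧
      Pool.Agent.Results.MP_be93de_nt.MostShifts.Clustered n χ m ε k}}
    (PS_most M η hη _ hM) L κ hκ
  refine ⟨δ, hδ, ?_⟩
  rw [eventually_atTop]
  have hdeg : ((Polynomial.X : Polynomial ℤ) ^ 2).natDegree = 2 := by simp
  refine ⟨x₀, fun x hx => le_trans ?_ ((h x hx).trans (le_of_eq ?_))⟩
  · apply Nat.cast_le.2
    apply card_le_card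
    intro c hc
    unfold exceptions at hc
    rw [mem_filter, Fintype.mem_piFinset] at hc
    rw [mem_filter, Fintype.mem_piFinset]
    have hev : ∀ (y : ℤ) (j : Fin r), (c j : ℤ) +
        σ j * ((Polynomial.X : Polynomial ℤ) ^ 2).eval y = c j + σ j * y ^ 2 := by
      intro y j
      rw [Polynomial.eval_pow, Polynomial.eval_X]
    refine ⟨fun j => ?_, ?_, ?_⟩
    · rw [hdeg]
      exact hc.1 j
    · intro l hl
      obtain ⟨y, hy1, hy2⟩ := hc.2.1 l hl
      refine ⟨y, hy1, fun j hd => hy2 j ?_⟩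
      rwa [hev] at hd
    · refine lt_of_le_of_lt ?_ hc.2.2
      apply Nat.cast_le.2
      have hfin : (good σ n χ m ε c x).Finite := by
        apply (Finset.finite_toSet (Finset.range (x + 1))).subset
        rintro k ⟨h1, h2, -, -⟩
        rw [Finset.mem_coe, Finset.mem_range]
        unfold p at h2
        have e1 := Nat.add_two_le_nth_prime (k * n - 1)
        have e2 : k * 1 ≤ k * n := Nat.mul_le_mul_left k hn
        omega
      rw [← Set.ncard_coe_finset]
      apply Set.ncard_le_ncard_of_injOn (fun q => Nat.primeCounting q / n) _ _ hfin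
      · intro q hq
        rw [mem_coe] at hq
        unfold Arg at hq
        rw [mem_filter, mem_Icc] at hq
        obtain ⟨⟨hq1, hq2⟩, hqp, ⟨k, hk1, hk2, hk3⟩, hqa⟩ := hq
        have hdiv : Nat.primeCounting q / n = k := by
          rw [hk2]
          exact Nat.mul_div_cancel k (by omega)
        have hpq : p (k * n) = q := by
          rw [← hk2]
          have hpc : 1 ≤ Nat.primeCounting q := by
            rw [hk2]
            exact Nat.mul_pos hk1 hn
          unfold p
          have e1 : Nat.primeCounting q - 1 = Nat.count Nat.Prime q := by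
            unfold Nat.primeCounting Nat.primeCounting'
            rw [Nat.count_succ, if_pos hqp]
            omega
          rw [e1]
          exact Nat.nth_count hqp
        have hgoal : k ∈ good σ n χ m ε c x := by
          refine ⟨hk1, by rw [hpq]; exact hq2, hk3, fun j => ?_⟩
          rw [hpq]
          have h1 := hqa j
          rw [hev] at h1
          refine ⟨_, h1, ?_⟩
          exact Int.toNat_of_nonneg (by
            by_contra hneg
            push Not at hneg
            rw [Int.toNat_of_nonpos hneg.le] at h1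
            exact Nat.not_prime_zero h1)
        simp only [hdiv]
        exact hgoal
      · intro q hq q' hq' hqq
        rw [mem_coe] at hq hq'
        unfold Arg at hq hq'
        rw [mem_filter] at hq hq'
        obtain ⟨-, hqp, ⟨k, hk1, hk2, -⟩, -⟩ := hq
        obtain ⟨-, hqp', ⟨k', hk1', hk2', -⟩, -⟩ := hq'
        simp only at hqq
        rw [hk2, hk2', Nat.mul_div_cancel k (by omega), Nat.mul_div_cancel k' (by omega)] at hqq
        have e0 : Nat.primeCounting q = Nat.primeCounting q' := by rw [hk2, hk2', hqq]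
        have e1 : Nat.count Nat.Prime q = Nat.count Nat.Prime q' := by
          unfold Nat.primeCounting Nat.primeCounting' at e0
          rw [Nat.count_succ, Nat.count_succ, if_pos hqp, if_pos hqp'] at e0
          omega
        rw [← Nat.nth_count hqp, ← Nat.nth_count hqp', e1]
  · congr 1
    rw [Finset.prod_congr rfl fun j _ => by rw [hdeg]]
    rw [prod_const, card_univ, Fintype.card_fin]

/-- **Constants and squares of primes with index a multiple of `n`.** For all `n ≥ 1`, all signs
`σ_1, ..., σ_r = ±1`, all finite colourings `χ` of the positive integers, all `m`, `L` and all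
`ε, κ > 0` there is `δ > 0` such that for all large `x`, for all but at most `κ x ^ (2 r)` of the
vectors `(c_1, ..., c_r)` of integers `1 ≤ c_j ≤ L x²` without local obstruction, there are at least
`δ x / (log x) ^ (r + 1)` integers `k ≥ 1` with `p_{kn} ≤ x` such that all `c_j + σ_j p_{kn}²` are
(positive) primes and at least `m` other primes `p_{k'n}` within `ε log p_{kn}` of `p_{kn}` have `k'`
of the colour of `k`. -/
theorem result (r : ℕ) (σ : Fin r → ℤ) (hσ : ∀ j, σ j = 1 ∨ σ j = -1) (n : ℕ) (hn : 1 ≤ n)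
    (s : ℕ) (χ : ℕ → Fin s) (m : ℕ) (ε : ℝ) (hε : 0 < ε)
    (L : ℕ) (κ : ℝ) (hκ : 0 < κ) : ∃ δ : ℝ, 0 < δ ∧ ∀ᶠ x : ℕ in atTop,
      ((exceptions σ n χ m ε δ L x).card : ℝ) ≤ κ * ((x : ℝ) ^ 2) ^ r :=
  fixed σ hσ n hn χ m ε hε L κ hκ

end Pool.Agent.Results.MP_c971ef_nt.MostConstants
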