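import Pool.Agent.V11251.DS.ArbI

/-!
# Primes `2 k + Y` and `p_{kn} ^ 2 - 2` for constants `Y` with rearranged digits

The analytic input (the laws of the random integers, second moments of the error for one form with arbitrary weights) is
in the starting files `Pool.Agent.H373R2.T7`, `Pool.Agent.W93`, `Pool.Agent.TH872`; new are the systems of several forms
with arbitrary weights and the passage to primes (`Pool.Agent.V11251.DS`).
-/

set_option autoImplicit false

namespace Pool.Agent.Results.MP_c971ef_nt.RearrangedConstants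

open Finset

/-- `d` is a word of `k` digits in base `b`, in which no digit stands at more than `(1 - η) k` places. -/
def Mixed (b k : ℕ) (η : ℝ) (d : Fin k → ℕ) : Prop :=
  (∀ i, d i < b) ∧ ∀ a, ((univ.filter fun i => d i = a).card : ℝ) ≤ (1 - η) * k

/-- The integer whose `k` digits in base `b` are the digits `d` rearranged by the permutation `σ`: the digit number `j`
(the coefficient of `b ^ j`) is `d (σ j)`. -/
def rearranged (b : ℕ) {k : ℕ} (d : Fin k → ℕ) (σ : Equiv.Perm (Fin k)) : ℕ := ∑ j : Fin k, d (σ j) * b ^ (j : ℕ)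

open Classical in
/-- The sieve model of the indicator function of the primes: `1 / (log x ∏_{p ≤ z} (1 - 1 / p))` if `x ≥ 2` has no prime
factor `≤ z`, and `0` if `x = 0` or if `x` has a prime factor `≤ z` (for `x = 1` the logarithm is replaced by `log 2`). -/
noncomputable def model (z x : ℕ) : ℝ :=
  if 1 ≤ x ∧ ∀ p : ℕ, p.Prime → p ≤ z → ¬ p ∣ x then
    1 / (Real.log (max x 2 : ℕ) * ∏ p ∈ (Icc 1 z).filter Nat.Prime, (1 - 1 / (p : ℝ))) else 0

/-- The `m`-th prime, with `p_1 = 2`. -/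
noncomputable def pr (m : ℕ) : ℕ := Nat.nth Nat.Prime (m - 1)

open Classical in
/-- The `1 ≤ k ≤ X` for which `p_{kn} ^ 2 - 2` is a prime. -/
noncomputable def upTo (n X : ℕ) : Finset ℕ := (Icc 1 X).filter (fun k => (pr (k * n) ^ 2 - 2).Prime)

open Classical in
/-- The `1 ≤ k ≤ X` for which `p_{kn} ^ 2 - 2` and all the numbers `2 k + Y i` are primes. -/
noncomputable def both {s : ℕ} (n : ℕ) (Y : Fin s → ℕ) (X : ℕ) : Finset ℕ :=
  (upTo n X).filter (fun k => ∀ i, (2 * k + Y i).Prime)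

/-- For all `1 ≤ n ≤ log ^ K N` and all `X ≤ N`, the number of the `1 ≤ k ≤ X` for which `p_{kn} ^ 2 - 2` and all the
numbers `2 k + Y i` are primes is equal to the sum of the products of the models of `2 k + Y i` over the `1 ≤ k ≤ X` for
which `p_{kn} ^ 2 - 2` is a prime, up to an error of at most `N / log ^ U N`. -/
def Good {s : ℕ} (z K U N : ℕ) (Y : Fin s → ℕ) : Prop :=
  ∀ n : ℕ, 1 ≤ n → (n : ℝ) ≤ Real.log N ^ K → ∀ X ≤ N,
    |((both n Y X).card : ℝ) - ∑ k ∈ upTo n X, ∏ i, model z (2 * k + Y i)| ≤ N / Real.log N ^ U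

open Classical in
/-- Let `s`, bases `b i ≥ 2`, `η > 0` and `κ i ≥ 1` (`i < s`), `B`, `K` and `U` be fixed, let `E` be a sufficiently large
exponent, let `N` be large, `log ^ E N ≤ z ≤ log ^ (E + 1) N`, let `k i` be lengths with `N / B ≤ b i ^ k i ≤ B N`, let
`0 ≤ c i ≤ B N`, and let `d i` be ANY word of `k i` digits in base `b i` in which no digit stands at more than `(1 - η) k i`
places. Rearrange the digits of each `d i` by a permutation `σ i`, let `v i` be the integer with the rearranged digits, and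
put `Y i = c i + κ i v i`. Then all the vectors `(σ 1, ..., σ s)` of permutations, with the exception of a proportion of at
most `1 / log ^ U N` of them, have the following property, for all `1 ≤ n ≤ log ^ K N`
and all `X ≤ N`: the number of the `1 ≤ k ≤ X` for which `p_{kn} ^ 2 - 2` and all the numbers `2 k + Y i` are primes is the
number predicted by the sieve model, up to an error of at most `N / log ^ U N`: the sum, over the `1 ≤ k ≤ X` for which
`p_{kn} ^ 2 - 2` is a prime and no `2 k + Y i` has a prime factor `≤ z`, of the products of the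
`1 / (log (2 k + Y i) ∏_{p ≤ z} (1 - 1 / p))`. -/
theorem result (s : ℕ) (b : Fin s → ℕ) (hb : ∀ i, 2 ≤ b i) (η : ℝ) (hη : 0 < η) (κ : Fin s → ℕ) (hκ : ∀ i, 1 ≤ κ i)
    (B K U : ℕ) :
    ∃ E₀ : ℕ, ∀ E : ℕ, E₀ ≤ E → ∃ N₀ : ℕ, ∀ N, N₀ ≤ N → ∀ k : Fin s → ℕ, (∀ i, N ≤ B * b i ^ k i ∧ b i ^ k i ≤ B * N) →
      ∀ d : ∀ i, Fin (k i) → ℕ, (∀ i, Mixed (b i) (k i) η (d i)) →
      ∀ c : Fin s → ℕ, (∀ i, c i ≤ B * N) → ∀ z : ℕ, Real.log N ^ E ≤ z → (z : ℝ) ≤ Real.log N ^ (E + 1) →
      ((univ.filter fun σ : ∀ i, Equiv.Perm (Fin (k i)) =>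
        ¬ Good z K U N (fun i => c i + κ i * rearranged (b i) (d i) (σ i))).card : ℝ) ≤
      ((∏ i, (k i).factorial : ℕ) : ℝ) / Real.log N ^ U := by
  obtain ⟨E₀, h⟩ := Pool.Agent.V11251.DS.idx_perm s b hb η hη (fun i => (κ i : ℤ)) (fun _ => 2)
    (fun i => by have := hκ i; exact_mod_cast (by omega : κ i ≠ 0)) (fun _ => by norm_num) B K U
  refine ⟨E₀, fun E hE => ?_⟩
  obtain ⟨N₀, h1⟩ := h E hE
  refine ⟨N₀ + 8, fun N hN k hk d hd c hc z hz1 hz2 => ?_⟩
  have hlog : 2 ≤ Real.log N := by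
    have h8 : Real.log 8 ≤ Real.log N := Real.log_le_log (by norm_num) (by exact_mod_cast (by omega : 8 ≤ N))
    have h9 : Real.log 8 = 3 * Real.log 2 := by rw [← Real.log_rpow (by norm_num)]; norm_num
    have := Real.log_two_gt_d9
    linarith
  rw [Nat.cast_prod]
  refine h1 N (by omega) k (fun i => ⟨(hk i).2, (hk i).1⟩) d (fun i => ⟨(hd i).1, (hd i).2⟩) (fun i => (c i : ℤ))
    (fun i => by rw [abs_of_nonneg (by positivity)]; exact_mod_cast hc i)
    z hz1 hz2 (ℕ) (Icc 1 ⌊Real.log N ^ K⌋₊) (by rw [Nat.card_Icc, Nat.add_sub_cancel]; exact Nat.floor_le (by positivity)) (fun D => {k | (pr (k * D) ^ 2 - 2).Prime}) (fun σ => Good z K U N (fun i => c i + κ i * rearranged (b i) (d i) (σ i))) (fun σ hv => ?_)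
  intro e he1 he2 X hX
  have h2 := hv e (by rw [mem_Icc]; exact ⟨he1, Nat.le_floor he2⟩) X hX
  have e2 : ∀ i, (((c i + κ i * rearranged (b i) (d i) (σ i) : ℕ)) : ℤ) = (c i : ℤ) + (κ i : ℤ) * (((Pool.Agent.TH872.An.V (b i) (d i) (σ i) : ℕ) : ℕ) : ℤ) := fun i => by
    push_cast; rfl
  rw [Pool.Agent.V11251.DS.DC_set' _ X z _ _ (upTo e X) (both e (fun i => c i + κ i * rearranged (b i) (d i) (σ i)) X)
    (fun n => ∏ i, model z (2 * n + (c i + κ i * rearranged (b i) (d i) (σ i))))] at h2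
  · exact h2
  · intro n
    unfold upTo
    rw [mem_filter]
    exact Iff.rfl
  · intro n
    unfold both upTo
    rw [mem_filter, mem_filter, and_assoc]
    apply and_congr Iff.rfl
    apply and_congr Iff.rfl
    apply forall_congr'
    intro i
    rw [← e2]
    have h3 : (2 * (n : ℤ) + ((c i + κ i * rearranged (b i) (d i) (σ i) : ℕ) : ℤ)).toNat = 2 * n + (c i + κ i * rearranged (b i) (d i) (σ i)) := by omega
    rw [h3]
  · intro n _
    apply prod_congr rfl
    intro i _
    rw [← e2]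
    have h3 : (2 * (n : ℤ) + ((c i + κ i * rearranged (b i) (d i) (σ i) : ℕ) : ℤ)) = ((2 * n + (c i + κ i * rearranged (b i) (d i) (σ i)) : ℕ) : ℤ) := by push_cast; ring
    rw [h3, Pool.Agent.V11251.DS.Mo_cast]
    rfl

end Pool.Agent.Results.MP_c971ef_nt.RearrangedConstants
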