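import Pool.Agent.Helper29.BE.Cor

/-!
# Primes `2 k + 1` and `p_{kn}² + h` with `1 ≤ k ≤ n`, for every large `n`

The problem asks, for every `n`, for some `k ≤ n` such that `2 k + 1` and `p_{kn}² - 2` are prime.
Here the condition on `2 k + 1` is kept, and the shift is another even number: for EVERY large `n`
and `H` from `n ^ 136` up to about `exp (n / log n)`, at least `c H / log log n` of the even `h ≤ H`
have some `k ≤ n` such that `2 k + 1` and `p_{kn}² + h` are prime, and the same is true for
`h - p_{kn}²`. Only the `k ≤ K` with `2 k + 1` prime are needed, as soon as their number is at least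
`log H`, so that `K` can be as small as a constant times `log n log log n`. More generally one `k`
serves `r` shifts at once for at least `c_r H ^ r / (log log n) ^ r` of the `r`-tuples of shifts, if
there are at least `(log H) ^ r` such `k`.

The proof is the second moment method, with the sharp form of the upper bound sieve for prime pairs
and the moments of the singular factor over differences of the starting library
(`Pool.Agent.H197R2.PG`), in a form for vectors of shifts and arbitrary sets of vectors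
(`Pool.Agent.Helper29.BE.main`). No distribution property of the primes `p_{kn}` is used.
-/

set_option autoImplicit false

open Finset Filter Topology

namespace Pool.Agent.Results.MP_c971ef_nt.ShiftedSquares

/-- The `m`-th prime: `p 1 = 2`, `p 2 = 3`, `p 3 = 5`, and so on. -/
noncomputable def p (m : ℕ) : ℕ := Nat.nth Nat.Prime (m - 1)

/-- The integers `1 ≤ k ≤ K` for which `2 k + 1` is prime. -/
def candidates (K : ℕ) : Finset ℕ := (Icc 1 K).filter (fun k => (2 * k + 1).Prime)

/-- For `b = true`: the number `a + h` is prime. For `b = false`: the number `h - a` is positive and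
prime. -/
def PrimeShift (b : Bool) (a h : ℕ) : Prop :=
  if b = true then (a + h).Prime else (a < h ∧ (h - a).Prime)

/-- The `r`-tuples of even numbers `1 ≤ h j ≤ H` such that for some `k ≤ K` with `2 k + 1` prime all
the numbers `p_{kn}² + h j` (for `s j = true`) and `h j - p_{kn}²` (for `s j = false`) are prime. -/
def shifts {r : ℕ} (s : Fin r → Bool) (n K H : ℕ) : Set (Fin r → ℕ) :=
  {h | (∀ j, 1 ≤ h j ∧ h j ≤ H ∧ Even (h j)) ∧ ∃ k ∈ candidates K,
    ∀ j, PrimeShift (s j) (p (k * n) ^ 2) (h j)}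

open Pool.Agent.Helper29.BE in
/-- **Shifts of the squares of the primes `p_{kn}`, `2 k + 1` prime.** For every `r ≥ 1` there are
`c > 0` and `n₀` such that for all `n ≥ n₀`, all `K ≤ n` and all `H` with `n ^ 136 ≤ H` and
`(log H) ^ r ≤ #{k ≤ K : 2 k + 1 prime}`, and all signs `s`: for at least
`c H ^ r / (log log n) ^ r` of the `r`-tuples of even numbers `h_j ≤ H` there is some `1 ≤ k ≤ K` such
that `2 k + 1` and all the numbers `p_{kn}² + h_j` (or `h_j - p_{kn}²`) are prime. -/
theorem result (r : ℕ) (hr : 1 ≤ r) : ∃ c : ℝ, 0 < c ∧ ∃ n₀ : ℕ, ∀ n : ℕ, n₀ ≤ n → ∀ K : ℕ,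
    K ≤ n → ∀ H : ℕ, n ^ 136 ≤ H → Real.log H ^ r ≤ ((candidates K).card : ℝ) →
    ∀ s : Fin r → Bool,
    c * H ^ r / Real.log (Real.log n) ^ r ≤ ((shifts s n K H).ncard : ℝ) := by
  classical
  obtain ⟨c, hc, n₀, h⟩ := shiftsN r 8 hr (by norm_num)
  have t2 : Tendsto (fun N : ℕ => N ^ 2) atTop atTop := tendsto_pow_atTop (by norm_num)
  obtain ⟨n₁, hn₁⟩ := eventually_atTop.1 ((t2.eventually P_le_sq).and
    (eventually_ge_atTop (n₀ + 2)))
  refine ⟨c, hc, n₁, fun n hn K hK H hH hHn s => ?_⟩
  obtain ⟨g2, g3⟩ := hn₁ n hn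
  have hn1 : 1 ≤ n := by omega
  set T : Finset ℕ := candidates K with hT
  have hTm : ∀ k ∈ T, 1 ≤ k ∧ k ≤ K := fun k hk => mem_Icc.1 (mem_filter.1 hk).1
  have h1 := h n (by omega) H (by norm_num; exact hH) T (fun _ k => P (k * n) ^ 2) s (by
    intro i k hk k' hk' hkk
    obtain ⟨hk1, hk2⟩ := hTm k (mem_coe.1 hk)
    obtain ⟨hk1', hk2'⟩ := hTm k' (mem_coe.1 hk')
    have e1 : P (k * n) = P (k' * n) := Nat.pow_left_injective (by norm_num : (2 : ℕ) ≠ 0) hkk
    have e2 := P_inj (Nat.mul_pos hk1 hn1) (Nat.mul_pos hk1' hn1) e1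
    exact Nat.eq_of_mul_eq_mul_right (by omega) e2) (by
    intro i k hk
    obtain ⟨hk1, hk2⟩ := hTm k hk
    have e1 : 2 ≤ k * n := by
      have : 1 * n ≤ k * n := Nat.mul_le_mul_right _ hk1
      omega
    have e2 : k * n ≤ n ^ 2 := by
      calc k * n ≤ n * n := Nat.mul_le_mul_right _ (by omega)
        _ = n ^ 2 := by ring
    refine ⟨(Nat.odd_iff.2 (P_odd e1).2).pow, ?_⟩
    calc P (k * n) ^ 2 ≤ ((n ^ 2) ^ 2) ^ 2 := Nat.pow_le_pow_left ((P_mono e2).trans g2) 2
      _ = n ^ 8 := by ring) hHn
  refine h1.trans ?_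
  apply Nat.cast_le.2
  apply card_le
  intro h k hk hp
  exact ⟨k, hk, hp⟩

end Pool.Agent.Results.MP_c971ef_nt.ShiftedSquares
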